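import Pool.Agent.Q257.ZQ.Prod

/-!
# `CPQM` implies `CPQMBi` in ZF

In every model of Zermelo set theory (so in every model of ZF): if every countable product of
quasi-metrizable spaces is quasi-metrizable, then every countable product of quasi-metrizable
bitopological spaces is quasi-metrizable.

Idea of the proof. `CPQM` gives canonical quasi-metrics for every countable family of
quasi-metrizable spaces on one set (restrict a quasi-metric of the product to slices). Applied to
suitable spaces with three kinds of points (`corner`) this gives canonical solutions of every
countable family of solvable pairwise constraints `G(s, s', h(s), h(s'))` for functions `h` with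
values in `ω`, upward closed in the values (`pairwise`). With such functions one defines, from
canonical quasi-metrics of the two topologies, a canonical countable base of a quasi-uniformity
for the two topologies (`exists_base`), and the product is quasi-metrized by the chain lemma.
-/

namespace Pool.Agent.Results.MP_ccf5e0_lc.BitopologicalProducts

open FirstOrder FirstOrder.Language
open Pool.Agent.Helper672.Plain (LSet Zermelo El)
open Pool.Agent.H635Amen (IsReals)
open Pool.Agent.Q257.ZQ

universe u

theorem result (M : Type u) [LSet.Structure M] [Zermelo M] (r : M) [Field (El r)]
    [LinearOrder (El r)] [IsStrictOrderedRing (El r)] (hr : IsReals r) (h : CPQM r) :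
    CPQMBi r := by
  let _ := Pool.Agent.Helper672.Plain.toL M
  have : Pool.Agent.Helper672.ZFA.IsModel M :=
    Pool.Agent.Helper672.ZFA.H635.isModel_of_zermelo inferInstance
  exact cpqmbi_of hr h

end Pool.Agent.Results.MP_ccf5e0_lc.BitopologicalProducts
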